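import Mathlib
import Pool.Agent.H31.HyperRamsey

set_option autoImplicit false

namespace Pool.Agent.Results.MP_75f2a2_co.Bounded

/-- the closed axis-parallel unit cube with lowest corner `a` -/
def cube (a : Fin 3 → ℝ) : Set (Fin 3 → ℝ) := {x | ∀ i, a i ≤ x i ∧ x i ≤ a i + 1}

/-- the intersection graph of a finite family of unit cubes -/
def cubeGraph {n : ℕ} (p : Fin n → Fin 3 → ℝ) : SimpleGraph (Fin n) where
  Adj u v := u ≠ v ∧ (cube (p u) ∩ cube (p v)).Nonempty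
  symm := ⟨fun _ _ h => ⟨h.1.symm, by rw [Set.inter_comm]; exact h.2⟩⟩
  loopless := ⟨fun _ h => h.1 rfl⟩

/-- `S` is shattered by the balls of radius `r` of the graph `G` -/
def Shattered {V : Type} (G : SimpleGraph V) (r : ℕ) (S : Finset V) : Prop :=
  ∀ S' ⊆ S, ∃ v, ∀ u ∈ S, u ∈ S' ↔ G.edist u v ≤ r

/-! ### lazy walks -/

def Near {n : ℕ} (p : Fin n → Fin 3 → ℝ) (u v : Fin n) : Prop := ∀ c, |p u c - p v c| ≤ 1

theorem near_iff {n : ℕ} (p : Fin n → Fin 3 → ℝ) (u v : Fin n) :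
    Near p u v ↔ u = v ∨ (cubeGraph p).Adj u v := by
  constructor
  · intro h
    by_cases e : u = v
    · exact Or.inl e
    · refine Or.inr ⟨e, fun c => max (p u c) (p v c), fun c => ?_, fun c => ?_⟩
      · have := abs_le.1 (h c)
        exact ⟨le_max_left _ _, max_le (by linarith) (by linarith)⟩
      · have := abs_le.1 (h c)
        exact ⟨le_max_right _ _, max_le (by linarith) (by linarith)⟩
  · rintro (rfl | ⟨-, x, h1, h2⟩) c
    · simp
    · have := h1 c
      have := h2 c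
      rw [abs_le]; constructor <;> linarith

theorem lazy_of {n : ℕ} (p : Fin n → Fin 3 → ℝ) {u v : Fin n} {r : ℕ}
    (h : (cubeGraph p).edist u v ≤ r) :
    ∃ w : ℕ → Fin n, w 0 = u ∧ w r = v ∧ ∀ t, Near p (w t) (w (t + 1)) := by
  obtain ⟨q, hq⟩ := SimpleGraph.exists_walk_of_edist_ne_top
    (ne_top_of_le_ne_top (ENat.coe_ne_top r) h)
  rw [← hq] at h
  refine ⟨q.getVert, q.getVert_zero, q.getVert_of_length_le (by exact_mod_cast h), fun t => ?_⟩
  rw [near_iff]
  by_cases ht : t < q.length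
  · exact Or.inr (q.adj_getVert_succ ht)
  · left
    rw [q.getVert_of_length_le (by omega), q.getVert_of_length_le (by omega)]

theorem edist_le {n : ℕ} (p : Fin n → Fin 3 → ℝ) (w : ℕ → Fin n)
    (h : ∀ t, Near p (w t) (w (t + 1))) (k : ℕ) : (cubeGraph p).edist (w 0) (w k) ≤ k := by
  induction k with
  | zero => simp
  | succ k ih =>
    refine (SimpleGraph.edist_triangle (v := w k)).trans ?_
    push_cast
    refine add_le_add ih ?_
    rcases (near_iff p _ _).1 (h k) with e | e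
    · rw [e]; simp
    · exact (SimpleGraph.edist_eq_one_iff_adj.2 e).le

theorem coord_le {n : ℕ} (p : Fin n → Fin 3 → ℝ) (w : ℕ → Fin n)
    (h : ∀ t, Near p (w t) (w (t + 1))) (c : Fin 3) (k : ℕ) : |p (w 0) c - p (w k) c| ≤ k := by
  induction k with
  | zero => simp
  | succ k ih =>
    have := abs_le.1 (h k c)
    have := abs_le.1 ih
    push_cast
    rw [abs_le]; constructor <;> linarith

/-! ### one coordinate -/

/-- a relation between two index pairs inside a quadruple does not depend on the quadruple -/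
def Ind (R : ℕ → ℕ → ℕ → ℕ → Prop) : Prop :=
  ∀ a b c d, a < b → b < c → c < d → d < 6 →
    (R a c b d ↔ R 0 2 1 3) ∧ (R b d a c ↔ R 1 3 0 2) ∧ (R a d b c ↔ R 0 3 1 2) ∧
      (R b c a d ↔ R 1 2 0 3)

def ClI (z : ℕ → ℕ → ℝ) : Prop :=
  (z 0 2 < z 1 3 ∧ z 0 3 < z 1 2) ∨ (z 1 3 < z 0 2 ∧ z 1 2 < z 0 3)

def ClJ (z : ℕ → ℕ → ℝ) : Prop :=
  (z 0 2 < z 1 3 ∧ z 1 2 < z 0 3) ∨ (z 1 3 < z 0 2 ∧ z 0 3 < z 1 2)

theorem not_both (z : ℕ → ℕ → ℝ) (h1 : ClI z) (h2 : ClJ z) : False := by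
  rcases h1 with h1 | h1 <;> rcases h2 with h2 | h2 <;> linarith [h1.1, h1.2, h2.1, h2.2]

/-- the four forbidden patterns of a coordinate -/
structure Pat (x y : ℕ → ℕ → ℝ) (A B C D : Prop) : Prop where
  ab : A → B → False
  cd : C → D → False
  a : A → C ∨ D
  b : B → C ∨ D
  c : C → A ∨ B
  d : D → A ∨ B
  ac : A → C → ClI x ∧ ClI y
  bd : B → D → ClI x ∧ ClI y
  ad : A → D → ClJ x ∧ ClJ y
  bc : B → C → ClJ x ∧ ClJ y

theorem pat (x y : ℕ → ℕ → ℝ) (h : ∀ i j, i < j → j < 6 → y i j ≤ x i j + 1)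
    (h1 : Ind fun i j k l => x i j + 1 < y k l) (h2 : Ind fun i j k l => x i j ≤ x k l) :
    Pat x y (x 0 2 + 1 < y 1 3) (x 1 3 + 1 < y 0 2) (x 0 3 + 1 < y 1 2) (x 1 2 + 1 < y 0 3) := by
  have e02 := h 0 2 (by norm_num) (by norm_num)
  have e13 := h 1 3 (by norm_num) (by norm_num)
  have e03 := h 0 3 (by norm_num) (by norm_num)
  have e12 := h 1 2 (by norm_num) (by norm_num)
  have H1 := fun a b c d (hh : a < b ∧ b < c ∧ c < d ∧ d < 6) =>
    h1 a b c d hh.1 hh.2.1 hh.2.2.1 hh.2.2.2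
  have H2 := fun a b c d (hh : a < b ∧ b < c ∧ c < d ∧ d < 6) =>
    h2 a b c d hh.1 hh.2.1 hh.2.2.1 hh.2.2.2
  refine ⟨fun a b => by linarith, fun a b => by linarith, fun a => ?_, fun a => ?_, fun a => ?_,
    fun a => ?_, fun a b => ⟨Or.inl ⟨by linarith, by linarith⟩, Or.inl ⟨by linarith, by linarith⟩⟩,
    fun a b => ⟨Or.inr ⟨by linarith, by linarith⟩, Or.inr ⟨by linarith, by linarith⟩⟩,
    fun a b => ⟨Or.inl ⟨by linarith, by linarith⟩, Or.inl ⟨by linarith, by linarith⟩⟩,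
    fun a b => ⟨Or.inr ⟨by linarith, by linarith⟩, Or.inr ⟨by linarith, by linarith⟩⟩⟩
  · rcases le_total (x 0 3) (x 1 2) with g | g
    · left
      have p1 : x 0 5 ≤ x 1 3 := (H2 0 1 3 5 (by norm_num)).2.2.1.2 g
      have p2 : x 1 3 + 1 < y 2 4 := (H1 1 2 3 4 (by norm_num)).1.2 a
      exact (H1 0 2 4 5 (by norm_num)).2.2.1.1 (by linarith)
    · right
      have p1 : x 2 3 ≤ x 0 4 := (H2 0 2 3 4 (by norm_num)).2.2.2.2 g
      have p2 : x 0 4 + 1 < y 1 5 := (H1 0 1 4 5 (by norm_num)).1.2 a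
      exact (H1 1 2 3 5 (by norm_num)).2.2.2.1 (by linarith)
  · rcases le_total (x 0 3) (x 1 2) with g | g
    · left
      have p1 : x 0 5 ≤ x 2 4 := (H2 0 2 4 5 (by norm_num)).2.2.1.2 g
      have p2 : x 2 4 + 1 < y 1 3 := (H1 1 2 3 4 (by norm_num)).2.1.2 a
      exact (H1 0 1 3 5 (by norm_num)).2.2.1.1 (by linarith)
    · right
      have p1 : x 2 3 ≤ x 1 5 := (H2 1 2 3 5 (by norm_num)).2.2.2.2 g
      have p2 : x 1 5 + 1 < y 0 4 := (H1 0 1 4 5 (by norm_num)).2.1.2 a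
      exact (H1 0 2 3 4 (by norm_num)).2.2.2.1 (by linarith)
  · rcases le_total (x 0 2) (x 1 3) with g | g
    · left
      have p1 : x 0 3 ≤ x 1 5 := (H2 0 1 3 5 (by norm_num)).1.2 g
      have p2 : x 1 5 + 1 < y 2 4 := (H1 1 2 4 5 (by norm_num)).2.2.1.2 a
      exact (H1 0 2 3 4 (by norm_num)).1.1 (by linarith)
    · right
      have p1 : x 2 5 ≤ x 0 4 := (H2 0 2 4 5 (by norm_num)).2.1.2 g
      have p2 : x 0 4 + 1 < y 1 3 := (H1 0 1 3 4 (by norm_num)).2.2.1.2 a
      exact (H1 1 2 3 5 (by norm_num)).2.1.1 (by linarith)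
  · rcases le_total (x 0 2) (x 1 3) with g | g
    · left
      have p1 : x 0 3 ≤ x 2 4 := (H2 0 2 3 4 (by norm_num)).1.2 g
      have p2 : x 2 4 + 1 < y 1 5 := (H1 1 2 4 5 (by norm_num)).2.2.2.2 a
      exact (H1 0 1 3 5 (by norm_num)).1.1 (by linarith)
    · right
      have p1 : x 2 5 ≤ x 1 3 := (H2 1 2 3 5 (by norm_num)).2.1.2 g
      have p2 : x 1 3 + 1 < y 0 4 := (H1 0 1 3 4 (by norm_num)).2.2.2.2 a
      exact (H1 0 2 4 5 (by norm_num)).2.1.1 (by linarith)

theorem ClI_neg {z : ℕ → ℕ → ℝ} (h : ClI fun i j => -z i j) : ClI z := by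
  rcases h with h | h
  · exact Or.inr ⟨by linarith [h.1], by linarith [h.2]⟩
  · exact Or.inl ⟨by linarith [h.1], by linarith [h.2]⟩

theorem ClJ_neg {z : ℕ → ℕ → ℝ} (h : ClJ fun i j => -z i j) : ClJ z := by
  rcases h with h | h
  · exact Or.inr ⟨by linarith [h.1], by linarith [h.2]⟩
  · exact Or.inl ⟨by linarith [h.1], by linarith [h.2]⟩

theorem pat' (x y : ℕ → ℕ → ℝ) (h : ∀ i j, i < j → j < 6 → |x i j - y i j| ≤ 1)
    (h1 : Ind fun i j k l => x i j + 1 < y k l) (h1' : Ind fun i j k l => y k l + 1 < x i j)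
    (h2 : Ind fun i j k l => x i j ≤ x k l)
    (fx : ∀ i j, i < j → j < 6 → ⌊x i j⌋ = ⌊x 0 1⌋)
    (fy : ∀ i j, i < j → j < 6 → ⌊y i j⌋ = ⌊y 0 1⌋) :
    Pat x y (1 < |x 0 2 - y 1 3|) (1 < |x 1 3 - y 0 2|) (1 < |x 0 3 - y 1 2|)
      (1 < |x 1 2 - y 0 3|) := by
  have bx : ∀ i j, i < j → j < 6 → (⌊x 0 1⌋ : ℝ) ≤ x i j ∧ x i j < ⌊x 0 1⌋ + 1 := by
    intro i j a b
    rw [← fx i j a b]
    exact ⟨Int.floor_le _, Int.lt_floor_add_one _⟩
  have by' : ∀ i j, i < j → j < 6 → (⌊y 0 1⌋ : ℝ) ≤ y i j ∧ y i j < ⌊y 0 1⌋ + 1 := by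
    intro i j a b
    rw [← fy i j a b]
    exact ⟨Int.floor_le _, Int.lt_floor_add_one _⟩
  rcases le_total ⌊x 0 1⌋ ⌊y 0 1⌋ with g | g
  · have g' : (⌊x 0 1⌋ : ℝ) ≤ ⌊y 0 1⌋ := by exact_mod_cast g
    have e : ∀ i j k l, i < j → j < 6 → k < l → l < 6 →
        (1 < |x i j - y k l| ↔ x i j + 1 < y k l) := by
      intro i j k l a b c d
      have := bx i j a b
      have := by' k l c d
      rw [lt_abs]
      constructor
      · rintro (h | h) <;> linarith
      · intro h; right; linarith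
    rw [e, e, e, e] <;> try norm_num
    exact pat x y (fun i j a b => by linarith [(abs_le.1 (h i j a b)).1]) h1 h2
  · have g' : (⌊y 0 1⌋ : ℝ) ≤ ⌊x 0 1⌋ := by exact_mod_cast g
    have e : ∀ i j k l, i < j → j < 6 → k < l → l < 6 →
        (1 < |x i j - y k l| ↔ -x i j + 1 < -y k l) := by
      intro i j k l a b c d
      have := bx i j a b
      have := by' k l c d
      rw [lt_abs]
      constructor
      · rintro (h | h) <;> linarith
      · intro h; left; linarith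
    have q := pat (fun i j => -x i j) (fun i j => -y i j)
      (fun i j a b => by linarith [(abs_le.1 (h i j a b)).2]) (by
        intro a b c d g1 g2 g3 g4
        have := h1' a b c d g1 g2 g3 g4
        have t : ∀ u v : ℝ, -u + 1 < -v ↔ v + 1 < u := fun u v => by
          constructor <;> intro h <;> linarith
        simpa only [t] using this) (by
        intro a b c d g1 g2 g3 g4
        have := h2 a b c d g1 g2 g3 g4
        simp only [neg_le_neg_iff]
        exact ⟨this.2.1, this.1, this.2.2.2, this.2.2.1⟩)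
    rw [e 0 2 1 3 (by norm_num) (by norm_num) (by norm_num) (by norm_num),
      e 1 3 0 2 (by norm_num) (by norm_num) (by norm_num) (by norm_num),
      e 0 3 1 2 (by norm_num) (by norm_num) (by norm_num) (by norm_num),
      e 1 2 0 3 (by norm_num) (by norm_num) (by norm_num) (by norm_num)]
    exact ⟨q.ab, q.cd, q.a, q.b, q.c, q.d,
      fun a b => (q.ac a b).imp ClI_neg ClI_neg, fun a b => (q.bd a b).imp ClI_neg ClI_neg,
      fun a b => (q.ad a b).imp ClJ_neg ClJ_neg, fun a b => (q.bc a b).imp ClJ_neg ClJ_neg⟩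

def Two (K : (ℕ → ℕ → ℝ) → Prop) (x : Fin 3 → ℕ → ℕ → ℝ) : Prop :=
  ∃ c c', c ≠ c' ∧ K (x c) ∧ K (x c')

theorem two_not (x : Fin 3 → ℕ → ℕ → ℝ) (h1 : Two ClI x) (h2 : Two ClJ x) : False := by
  obtain ⟨a, b, ab, i1, i2⟩ := h1
  obtain ⟨c, d, cd, j1, j2⟩ := h2
  have : a = c ∨ a = d ∨ b = c ∨ b = d := by
    clear i1 i2 j1 j2
    revert a b c d; decide
  rcases this with rfl | rfl | rfl | rfl
  · exact not_both _ i1 j1
  · exact not_both _ i1 j2
  · exact not_both _ i2 j1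
  · exact not_both _ i2 j2

theorem cover (x y : Fin 3 → ℕ → ℕ → ℝ) (A B C D : Fin 3 → Prop)
    (h : ∀ c, Pat (x c) (y c) (A c) (B c) (C c) (D c))
    (ha : ∃ c, A c) (hb : ∃ c, B c) (hc : ∃ c, C c) (hd : ∃ c, D c) :
    (Two ClI x ∧ Two ClI y) ∨ (Two ClJ x ∧ Two ClJ y) := by
  have I : ∀ c c', A c → C c → B c' → D c' → Two ClI x ∧ Two ClI y := by
    intro c c' a1 a2 b1 b2
    have ne : c ≠ c' := by rintro rfl; exact (h c).ab a1 b1
    exact ⟨⟨c, c', ne, ((h c).ac a1 a2).1, ((h c').bd b1 b2).1⟩,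
      ⟨c, c', ne, ((h c).ac a1 a2).2, ((h c').bd b1 b2).2⟩⟩
  have J : ∀ c c', A c → D c → B c' → C c' → Two ClJ x ∧ Two ClJ y := by
    intro c c' a1 a2 b1 b2
    have ne : c ≠ c' := by rintro rfl; exact (h c).ab a1 b1
    exact ⟨⟨c, c', ne, ((h c).ad a1 a2).1, ((h c').bc b1 b2).1⟩,
      ⟨c, c', ne, ((h c).ad a1 a2).2, ((h c').bc b1 b2).2⟩⟩
  obtain ⟨c1, a1⟩ := ha
  obtain ⟨c2, b2⟩ := hb
  obtain ⟨c3, c3'⟩ := hc
  obtain ⟨c4, d4⟩ := hd
  rcases (h c1).a a1 with p | p <;> rcases (h c2).b b2 with q | q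
  · rcases (h c4).d d4 with s | s
    · exact Or.inr (J _ _ s d4 b2 q)
    · exact Or.inl (I _ _ a1 p s d4)
  · exact Or.inl (I _ _ a1 p b2 q)
  · exact Or.inr (J _ _ a1 p b2 q)
  · rcases (h c3).c c3' with s | s
    · exact Or.inl (I _ _ s c3' b2 q)
    · exact Or.inr (J _ _ a1 p s c3')

def quad (a b c d : ℕ) (n : ℕ) : ℕ :=
  if n = 0 then a else if n = 1 then b else if n = 2 then c else d + (n - 3)

theorem quad_mono {a b c d : ℕ} (h1 : a < b) (h2 : b < c) (h3 : c < d) :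
    StrictMono (quad a b c d) := by
  intro m n h
  unfold quad
  split_ifs <;> omega

theorem result : ∃ f : ℕ → ℕ, ∀ (r n : ℕ) (p : Fin n → Fin 3 → ℝ) (S : Finset (Fin n)),
    Shattered (cubeGraph p) r S → S.card ≤ f r := by
  classical
  suffices h : ∀ r : ℕ, ∃ R : ℕ, ∀ (n : ℕ) (p : Fin n → Fin 3 → ℝ) (S : Finset (Fin n)),
      Shattered (cubeGraph p) r S → S.card ≤ R by
    choose f hf using h
    exact ⟨f, hf⟩
  intro r
  haveI : NeZero (4 * r + 2) := ⟨by omega⟩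
  haveI : Fintype (Fin 4 × Fin 4 × Fin 4 × Fin 4 → Prop × Prop × Prop) := Fintype.ofFinite _
  haveI : Fintype (Bool × Fin (r + 1) × Fin 3 →
      (Fin 4 × Fin 4 × Fin 4 × Fin 4 → Prop × Prop × Prop) × ZMod (4 * r + 2)) :=
    Fintype.ofFinite _
  obtain ⟨R, hR⟩ := Pool.Agent.H31.HyperRamsey.indisc
    (Bool × Fin (r + 1) × Fin 3 →
      (Fin 4 × Fin 4 × Fin 4 × Fin 4 → Prop × Prop × Prop) × ZMod (4 * r + 2)) 4 8
  refine ⟨R, fun n p S hS => ?_⟩
  by_contra hlt
  push Not at hlt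
  haveI : Nonempty (Fin n) := ⟨(Finset.card_pos.1 (by omega : 0 < S.card)).choose⟩
  have hv : ∀ u u' : Fin n, ∃ v, u ∈ S → u' ∈ S →
      ∀ k ∈ S, (k = u ∨ k = u') ↔ (cubeGraph p).edist k v ≤ r := by
    intro u u'
    by_cases h : u ∈ S ∧ u' ∈ S
    · obtain ⟨v, hv⟩ := hS {u, u'} (by simp [Finset.insert_subset_iff, h.1, h.2])
      exact ⟨v, fun _ _ k hk => by simpa using hv k hk⟩
    · exact ⟨u, fun a b => absurd ⟨a, b⟩ h⟩
  choose v hv using hv
  have hw : ∀ (f : Bool) (u u' : Fin n), ∃ w : ℕ → Fin n, u ∈ S → u' ∈ S →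
      w 0 = (if f then u else u') ∧ w r = v u u' ∧ ∀ t, Near p (w t) (w (t + 1)) := by
    intro f u u'
    by_cases h : u ∈ S ∧ u' ∈ S
    · obtain ⟨w, hw⟩ := lazy_of p ((hv u u' h.1 h.2 (if f then u else u')
        (by split_ifs; exacts [h.1, h.2])).1 (by split_ifs <;> simp))
      exact ⟨w, fun _ _ => hw⟩
    · exact ⟨fun _ => u, fun a b => absurd ⟨a, b⟩ h⟩
  choose w hw using hw
  obtain ⟨s, hs1, hs2, hs3⟩ := hR (Fin n) S (fun g z =>
    (fun q => (p (w z.1 (g q.1) (g q.2.1) z.2.1) z.2.2 + 1 <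
        p (w z.1 (g q.2.2.1) (g q.2.2.2) (z.2.1 + 1)) z.2.2,
      p (w z.1 (g q.2.2.1) (g q.2.2.2) (z.2.1 + 1)) z.2.2 + 1 <
        p (w z.1 (g q.1) (g q.2.1) z.2.1) z.2.2,
      p (w z.1 (g q.1) (g q.2.1) z.2.1) z.2.2 ≤
        p (w z.1 (g q.2.2.1) (g q.2.2.2) z.2.1) z.2.2),
      ((⌊p (w z.1 (g 0) (g 1) z.2.1) z.2.2⌋ : ℤ) : ZMod (4 * r + 2)))) hlt.le
  let X : Bool → ℕ → Fin 3 → ℕ → ℕ → ℝ := fun f t c i j => p (w f (s i) (s j) t) c
  have hq := fun a b c d (h1 : a < b) (h2 : b < c) (h3 : c < d) (h4 : d < 8) =>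
    hs3 (quad a b c d) (quad 0 1 2 3) (quad_mono h1 h2 h3)
      (quad_mono (by norm_num) (by norm_num) (by norm_num))
      (fun i hi => by unfold quad; split_ifs <;> omega)
      (fun i hi => by unfold quad; split_ifs <;> omega)
  have sne : ∀ i j, i < 8 → j < 8 → i ≠ j → s i ≠ s j := fun i j a b h e =>
    h (hs1.injOn a b e)
  -- all start vertices are close
  have close : ∀ i j, i < 8 → j < 8 → ∀ c, |p (s i) c - p (s j) c| ≤ 2 * r := by
    intro i j a b c
    obtain ⟨a1, a2, a3⟩ := hw true (s i) (s j) (hs2 i a) (hs2 j b)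
    obtain ⟨b1, b2, b3⟩ := hw false (s i) (s j) (hs2 i a) (hs2 j b)
    have e1 := abs_le.1 (coord_le p _ a3 c r)
    have e2 := abs_le.1 (coord_le p _ b3 c r)
    rw [a1, a2] at e1
    rw [b1, b2] at e2
    simp only [if_true, Bool.false_eq_true, if_false] at e1 e2
    rw [abs_le]; constructor <;> linarith
  have fl : ∀ f t c, t ≤ r → ∀ i j, i < j → j < 6 → ⌊X f t c i j⌋ = ⌊X f t c 0 1⌋ := by
    intro f t c ht i j a b
    have h1 := congrArg Prod.snd (congrFun (hq i j 6 7 a b (by norm_num) (by norm_num))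
      (f, ⟨t, by omega⟩, c))
    have h2 : ((⌊X f t c i j⌋ : ℤ) : ZMod (4 * r + 2)) = (⌊X f t c 0 1⌋ : ℤ) := h1
    rw [ZMod.intCast_eq_intCast_iff_dvd_sub] at h2
    obtain ⟨a1, -, a3⟩ := hw f (s i) (s j) (hs2 i (by omega)) (hs2 j (by omega))
    obtain ⟨b1, -, b3⟩ := hw f (s 0) (s 1) (hs2 0 (by omega)) (hs2 1 (by omega))
    have e1 := abs_le.1 (coord_le p _ a3 c t)
    have e2 := abs_le.1 (coord_le p _ b3 c t)
    rw [a1] at e1
    rw [b1] at e2
    have e3 : |p (if f then s i else s j) c - p (if f then s 0 else s 1) c| ≤ 2 * r := by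
      split_ifs
      · exact close _ _ (by omega) (by omega) c
      · exact close _ _ (by omega) (by omega) c
    have e3 := abs_le.1 e3
    have ht' : (t : ℝ) ≤ r := by exact_mod_cast ht
    have g1 := Int.floor_le (X f t c i j)
    have g2 := Int.lt_floor_add_one (X f t c i j)
    have g3 := Int.floor_le (X f t c 0 1)
    have g4 := Int.lt_floor_add_one (X f t c 0 1)
    have g5 : ((⌊X f t c 0 1⌋ - ⌊X f t c i j⌋ : ℤ) : ℝ) < ((4 * r + 2 : ℕ) : ℤ) := by
      push_cast; simp only [X] at *; linarith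
    have g6 : (-((4 * r + 2 : ℕ) : ℤ) : ℝ) < ((⌊X f t c 0 1⌋ - ⌊X f t c i j⌋ : ℤ) : ℝ) := by
      push_cast; simp only [X] at *; linarith
    have := Int.eq_zero_of_abs_lt_dvd h2 (abs_lt.2 ⟨by exact_mod_cast g6, by exact_mod_cast g5⟩)
    omega
  have stp : ∀ f t, t < r → (Two ClI (X f t) ∧ Two ClI (X f (t + 1))) ∨
      (Two ClJ (X f t) ∧ Two ClJ (X f (t + 1))) := by
    intro f t ht
    have far : ∀ i j k l, i < 8 → j < 8 → k < 8 → l < 8 → i ≠ k → i ≠ l → j ≠ k → j ≠ l →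
        ∃ c, 1 < |X f t c i j - X f (t + 1) c k l| := by
      intro i j k l a1 a2 a3 a4 n1 n2 n3 n4
      by_contra hc
      push Not at hc
      obtain ⟨b1, -, b3⟩ := hw f (s i) (s j) (hs2 i a1) (hs2 j a2)
      obtain ⟨-, c2, c3⟩ := hw f (s k) (s l) (hs2 k a3) (hs2 l a4)
      have := edist_le p (fun m => if m ≤ t then w f (s i) (s j) m else w f (s k) (s l) m) (by
        intro m
        by_cases h1 : m + 1 ≤ t
        · rw [if_pos h1, if_pos (by omega)]; exact b3 m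
        · by_cases h2 : m ≤ t
          · rw [if_neg h1, if_pos h2]
            obtain rfl : m = t := by omega
            exact hc
          · rw [if_neg h1, if_neg h2]; exact c3 m) r
      simp only [Nat.zero_le, if_true, if_neg (not_le.2 ht), b1, c2] at this
      have h2 := (hv (s k) (s l) (hs2 k a3) (hs2 l a4) _
        (by split_ifs; exacts [hs2 i a1, hs2 j a2])).2 this
      split_ifs at h2
      · exact h2.elim (sne _ _ a1 a3 n1) (sne _ _ a1 a4 n2)
      · exact h2.elim (sne _ _ a2 a3 n3) (sne _ _ a2 a4 n4)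
    refine cover _ _ _ _ _ _ (fun c => pat' (X f t c) (X f (t + 1) c) (fun i j a b => ?_)
      ?_ ?_ ?_ (fl f t c ht.le) (fl f (t + 1) c ht))
      (far 0 2 1 3 (by norm_num) (by norm_num) (by norm_num) (by norm_num) (by norm_num)
        (by norm_num) (by norm_num) (by norm_num))
      (far 1 3 0 2 (by norm_num) (by norm_num) (by norm_num) (by norm_num) (by norm_num)
        (by norm_num) (by norm_num) (by norm_num))
      (far 0 3 1 2 (by norm_num) (by norm_num) (by norm_num) (by norm_num) (by norm_num)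
        (by norm_num) (by norm_num) (by norm_num))
      (far 1 2 0 3 (by norm_num) (by norm_num) (by norm_num) (by norm_num) (by norm_num)
        (by norm_num) (by norm_num) (by norm_num))
    · exact (hw f (s i) (s j) (hs2 i (by omega)) (hs2 j (by omega))).2.2 t c
    all_goals
      intro a b c' d h1 h2 h3 h4
      have h := congrArg Prod.fst (congrFun (hq a b c' d h1 h2 h3 (by omega))
        (f, ⟨t, by omega⟩, c))
      have k1 := Prod.ext_iff.1 (congrFun h (0, 2, 1, 3))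
      have k2 := Prod.ext_iff.1 (congrFun h (1, 3, 0, 2))
      have k3 := Prod.ext_iff.1 (congrFun h (0, 3, 1, 2))
      have k4 := Prod.ext_iff.1 (congrFun h (1, 2, 0, 3))
    · exact ⟨iff_of_eq k1.1, iff_of_eq k2.1, iff_of_eq k3.1, iff_of_eq k4.1⟩
    · exact ⟨iff_of_eq (congrArg Prod.fst k1.2), iff_of_eq (congrArg Prod.fst k2.2),
        iff_of_eq (congrArg Prod.fst k3.2), iff_of_eq (congrArg Prod.fst k4.2)⟩
    · exact ⟨iff_of_eq (congrArg Prod.snd k1.2), iff_of_eq (congrArg Prod.snd k2.2),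
        iff_of_eq (congrArg Prod.snd k3.2), iff_of_eq (congrArg Prod.snd k4.2)⟩
  have w0 : ∀ f c i j, i < 8 → j < 8 → X f 0 c i j = p (if f then s i else s j) c := by
    intro f c i j a b
    simp only [X, (hw f (s i) (s j) (hs2 i a) (hs2 j b)).1]
  have wr : ∀ f c i j, i < 8 → j < 8 → X f r c i j = p (v (s i) (s j)) c := by
    intro f c i j a b
    simp only [X, (hw f (s i) (s j) (hs2 i a) (hs2 j b)).2.1]
  have hI : ∀ t, t < r → Two ClI (X true (t + 1)) := by
    intro t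
    induction t with
    | zero =>
      intro h
      rcases stp true 0 h with g | ⟨⟨c, -, -, g, -⟩, -⟩
      · exact g.2
      · exfalso
        unfold ClJ at g
        rw [w0, w0, w0, w0] at g <;> try norm_num
        simp only [if_true] at g
        rcases g with g | g <;> linarith [g.1, g.2]
    | succ t ih =>
      intro h
      rcases stp true (t + 1) h with g | g
      · exact g.2
      · exact (two_not _ (ih (by omega)) g.1).elim
  have hJ : ∀ t, t < r → Two ClJ (X false (t + 1)) := by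
    intro t
    induction t with
    | zero =>
      intro h
      rcases stp false 0 h with ⟨⟨c, -, -, g, -⟩, -⟩ | g
      · exfalso
        unfold ClI at g
        rw [w0, w0, w0, w0] at g <;> try norm_num
        simp only [Bool.false_eq_true, if_false] at g
        rcases g with g | g <;> linarith [g.1, g.2]
      · exact g.2
    | succ t ih =>
      intro h
      rcases stp false (t + 1) h with g | g
      · exact (two_not _ g.1 (ih (by omega))).elim
      · exact g.2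
  rcases Nat.eq_zero_or_pos r with rfl | hr
  · obtain ⟨a1, a2, -⟩ := hw true (s 0) (s 1) (hs2 0 (by omega)) (hs2 1 (by omega))
    obtain ⟨b1, b2, -⟩ := hw false (s 0) (s 1) (hs2 0 (by omega)) (hs2 1 (by omega))
    exact sne 0 1 (by omega) (by omega) (by omega) (a1.symm.trans (a2.trans (b2.symm.trans b1)))
  · obtain ⟨r, rfl⟩ : ∃ k, r = k + 1 := ⟨r - 1, by omega⟩
    obtain ⟨c, c', ne, g1, g2⟩ := hJ r (by omega)
    refine two_not _ (hI r (by omega)) ⟨c, c', ne, ?_, ?_⟩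
    · unfold ClJ at g1 ⊢
      rw [wr, wr, wr, wr] at g1 ⊢ <;> first | exact g1 | norm_num
    · unfold ClJ at g2 ⊢
      rw [wr, wr, wr, wr] at g2 ⊢ <;> first | exact g2 | norm_num

end Pool.Agent.Results.MP_75f2a2_co.Bounded
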